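import Pool.Agent.Helper68.QS.St1

/-! # QS MODULE CPB: the inner coefficient -/

open MeasureTheory Set Filter Topology Complex
open scoped ContDiff ComplexConjugate ENNReal

namespace Pool.Agent.Helper48.QS

open Pool.Agent.Helper68.QS Pool.Agent.Helper68.QC
open Pool.Agent.Helper61.QE (D Dx rf SU Fu FD Ab sy nuT muT syX syY Kap En Et)

theorem sol_restrict {μ ν : ℂ → ℂ} {f : ℂ → ℂ} (h : Sol μ univ f) (he : ∀ z ∈ D, ν z = μ z) :
    Sol ν D f := by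
  obtain ⟨a, b, hW, hab⟩ := h
  refine ⟨a, b, hW.mono (subset_univ _), ?_⟩
  rw [Measure.restrict_univ] at hab
  have hD : MeasurableSet D := measurableSet_ball
  filter_upwards [ae_restrict_of_ae (s := D) hab, ae_restrict_mem hD] with z hz hzD
  rw [hz, he z hzD]

theorem pCPB (hEX : Pool.Agent.Helper68.QC.StEX) (hFAC : Pool.Agent.Helper68.QC.StFAC)
    (hPOS : Pool.Agent.Helper68.QC.StPOS) (hCVM : Pool.Agent.Helper68.QC.StCVM)
    (hUNW : Pool.Agent.Helper68.QC.StUNW) : Pool.Agent.Helper68.QS.StCPB := by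
  intro k V μ₁ μ₂ ν₁ ν₂ hk hV hμ₁ hμ₂ hν₁ hν₂ hμ e1 e2
  have hDo : IsOpen D := Metric.isOpen_ball
  have s2 : Sol μ₁ D (nq μ₂) := sol_restrict (hEX k hk μ₂ hμ₂).sol hμ
  have hG := hFAC k hk μ₁ hμ₁ D (nq μ₂) hDo s2
  have himg : nq μ₁ '' D = nq ν₁ '' D := by
    conv_rhs => rw [← hV, image_image]
    exact image_congr fun z _ => e1 z
  have key : ∀ x, nq μ₂ ((nq μ₁).symm (nq ν₁ x)) = nq ν₂ x := by
    intro x
    have h1 : nq ν₁ x = nq μ₁ (V.symm x) := by rw [e1, V.apply_symm_apply]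
    rw [h1, (nq μ₁).symm_apply_apply, e2, V.apply_symm_apply]
  rw [himg] at hG
  have s1 : Sol ν₁ D (nq ν₁) := sol_restrict (hEX k hk ν₁ hν₁).sol fun _ _ => rfl
  have s3 := hPOS ν₁ D (nq ν₁ '' D) (nq ν₁) _ hDo ((nq ν₁).isOpenMap D hDo) hG
    (mapsTo_image _ _) s1
  obtain ⟨a, b, hW, hab⟩ := s3
  obtain ⟨a₂, b₂, hW₂, hb₂, -, ha₂, -⟩ := hCVM k hk ν₂ hν₂
  obtain ⟨u1, u2⟩ := hUNW D _ (nq ν₂) a b a₂ b₂ hDo (fun x _ => key x) hW
    (hW₂.mono (subset_univ _))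
  filter_upwards [u1, u2, hab] with z z1 z2 z3
  have h : ν₁ z * a₂ z = ν₂ z * a₂ z := by rw [← hb₂, ← z2, ← z1, z3]
  exact mul_right_cancel₀ (ha₂ z) h

end Pool.Agent.Helper48.QS
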